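import Pool.Agent.H77.ST.AOM

/-!
MP_aba1db_lc, question Q1: does ZFC prove that every analytic group on the set of real numbers
which is aleph omega free is free? The answer is no. There is a countable well-founded model of
ZFC in which there are a copy `R` of the real numbers and a group operation on `R`, analytic as a
subset of the third power of `R`, such that all subgroups of cardinality less than aleph omega are
free and the group is not free. The sentence expressing this is `φ` below.
-/

namespace Pool.Agent.Results.MP_aba1db_lc.NotFree

open ST ST.AO

theorem result : ∃ φ : Fml 0,
    (∀ (N : Type) (E : N → N → Prop), Sat E φ Fin.elim0 ↔ NonFreeAnalyticGroup E) ∧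
    ∃ (N : Type) (E : N → N → Prop), ZFC E ∧ Countable N ∧ WellFounded E ∧
      Sat E φ Fin.elim0 :=
  main

end Pool.Agent.Results.MP_aba1db_lc.NotFree
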